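import Pool.Agent.THX.Stmts

/-!
Squad THX, module RSD: the residues of the algebraic integers of degree `n`.
-/

namespace Pool.Agent.THX.H17

open Polynomial Pool.Agent.THX

noncomputable section

/-- monic polynomials from their coefficients -/
def mp {R : Type*} [CommRing R] (n : ℕ) (c : Fin n → R) : R[X] := X ^ n + ∑ i, C (c i) * X ^ (i : ℕ)

theorem deg_lt {R : Type*} [CommRing R] (n : ℕ) (c : Fin n → R) :
    (∑ i, C (c i) * X ^ (i : ℕ)).degree < (n : WithBot ℕ) := by
  refine lt_of_le_of_lt (degree_sum_le _ _) ?_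
  refine (Finset.sup_lt_iff (α := WithBot ℕ) (WithBot.bot_lt_coe n)).2 ?_
  intro i _
  exact lt_of_le_of_lt (degree_C_mul_X_pow_le _ _) (WithBot.coe_lt_coe.2 i.2)

theorem mp_monic {R : Type*} [CommRing R] (n : ℕ) (c : Fin n → R) : (mp n c).Monic :=
  monic_X_pow_add (deg_lt n c)

theorem mp_deg {R : Type*} [CommRing R] [Nontrivial R] (n : ℕ) (c : Fin n → R) :
    (mp n c).natDegree = n := by
  have h : (mp n c).degree = n := by
    unfold mp
    rw [degree_add_eq_left_of_degree_lt (by rw [degree_X_pow]; exact deg_lt n c), degree_X_pow]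
  exact natDegree_eq_of_degree_eq_some h

theorem eq_mp {R : Type*} [CommRing R] {n : ℕ} {g : R[X]} (hg : g.Monic) (hd : g.natDegree = n) :
    g = mp n (fun i => g.coeff i) := by
  conv_lhs => rw [hg.as_sum, hd]
  unfold mp
  rw [← Fin.sum_univ_eq_sum_range (fun i => C (g.coeff i) * X ^ i)]

theorem rsd : RsdStmt := by
  intro n p hn hp M hM hpM
  have := hM
  let _ : Field (OO ⧸ M) := Ideal.Quotient.field M
  have : Fact p.Prime := ⟨hp⟩
  have hpk : (p : OO ⧸ M) = 0 := by
    have := Ideal.Quotient.eq_zero_iff_mem.2 hpM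
    rwa [map_natCast] at this
  have hchar : CharP (OO ⧸ M) p := by
    obtain ⟨q, hq⟩ := CharP.exists (OO ⧸ M)
    have h1 : q ∣ p := (CharP.cast_eq_zero_iff (OO ⧸ M) q p).1 hpk
    rcases (Nat.dvd_prime hp).1 h1 with h2 | h2
    · subst h2
      have h3 := (CharP.cast_eq_zero_iff (OO ⧸ M) 1 1).2 (dvd_refl 1)
      rw [Nat.cast_one] at h3
      exact absurd h3 one_ne_zero
    · rw [← h2]
      exact hq
  let φ : ZMod p →+* OO ⧸ M := ZMod.castHom (dvd_refl p) (OO ⧸ M)
  classical
  let T : Finset (OO ⧸ M) := (Finset.univ : Finset (Fin n → ZMod p)).biUnion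
    fun c => (mp n (fun i => φ (c i))).roots.toFinset
  have hsub : {y : OO ⧸ M | ∃ x : OO, Ideal.Quotient.mk M x = y ∧
      ∃ g : ℤ[X], g.Monic ∧ g.natDegree = n ∧ aeval x g = 0} ⊆ (T : Set (OO ⧸ M)) := by
    rintro y ⟨x, rfl, g, hg, hd, h0⟩
    have h1 : eval (Ideal.Quotient.mk M x) (g.map (Int.castRingHom (OO ⧸ M))) = 0 := by
      have h2 := congrArg (Ideal.Quotient.mk M) h0
      rw [aeval_def, hom_eval₂, map_zero] at h2
      rw [eval_map, ← h2]
      congr 1
    have h2 : g.map (Int.castRingHom (OO ⧸ M)) = mp n (fun i => φ ((g.coeff i : ℤ) : ZMod p)) := by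
      rw [eq_mp (hg.map (Int.castRingHom (OO ⧸ M))) ((hg.natDegree_map _).trans hd)]
      congr 1
      funext i
      rw [coeff_map, map_intCast]
      rfl
    rw [Finset.mem_coe, Finset.mem_biUnion]
    refine ⟨fun i => ((g.coeff i : ℤ) : ZMod p), Finset.mem_univ _, ?_⟩
    rw [Multiset.mem_toFinset, mem_roots (mp_monic _ _).ne_zero, IsRoot.def, ← h2, h1]
  have hcard : T.card ≤ n * p ^ n := by
    have h1 := Finset.card_biUnion_le_card_mul (Finset.univ : Finset (Fin n → ZMod p))
      (fun c => (mp n (fun i => φ (c i))).roots.toFinset) n (fun c _ => by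
        refine (Multiset.toFinset_card_le _).trans ?_
        exact (card_roots' _).trans (mp_deg n _).le)
    rw [Finset.card_univ, Fintype.card_fun, ZMod.card, Fintype.card_fin, mul_comm] at h1
    exact h1
  refine ⟨T.finite_toSet.subset hsub, ?_⟩
  calc _ ≤ (T : Set (OO ⧸ M)).ncard := Set.ncard_le_ncard hsub T.finite_toSet
    _ = T.card := Set.ncard_coe_finset T
    _ ≤ _ := hcard

end

end Pool.Agent.THX.H17
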